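import Pool.Agent.U352.SB.Good

/-!
Semialgebraic sets that are invariant under a subgroup of finite index contain the good set or are
disjoint from it.
-/

set_option autoImplicit false
set_option linter.unusedSectionVars false

open Filter Topology
open scoped InnerProductSpace TensorProduct

namespace Pool.Agent.U352.SB

open Pool.Agent.W689.Mk (lin hol_add hol_sub hol_inv_apply hol_apply_inv lin_inv_apply lin_mul)
open Pool.Agent.U352.AF (LInv lin_apply_inv hol_mul IsQuot exists_quot)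
open Pool.Agent.U352.SA

variable {Γ : Type} [Group Γ]
  {X : Type} [TopologicalSpace X] [MulAction Γ X] {S : Finset Γ}
  {E : Type} [NormedAddCommGroup E] [NormedSpace ℝ E] [FiniteDimensional ℝ E]
  {hol : Γ →* (E ≃ᵃ[ℝ] E)} {C : Set E}

theorem comp_hol (γ : Γ) {f : E → ℝ} {n : ℕ} (hf : f ∈ affF E ^ n) :
    (fun x => f (hol γ x)) ∈ affF E ^ n := by
  have h3 : ∀ l : E →ₗ[ℝ] ℝ, (fun x => l (hol γ x)) ∈ affF E ^ 1 := by
    intro l
    rw [pow_one]
    refine ⟨l ∘ₗ ((hol γ).linear : E →ₗ[ℝ] E), l (hol γ 0), funext fun x => ?_⟩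
    have h4 := hol_add (hol := hol) γ 0 x
    rw [zero_add] at h4
    rw [h4, map_add, add_comm]
    rfl
  have h5 := comp_mem h3 hf
  rwa [one_mul] at h5

theorem dichotomy (hS : ∀ s ∈ S, s⁻¹ ∈ S) (hgen : Subgroup.closure (S : Set Γ) = ⊤)
    (hG : Good X S hol C) {K : Subgroup Γ} (hK : K.FiniteIndex) {Ω : Set E}
    (hΩ : ∀ γ ∈ K, ∀ x ∈ Ω, hol γ x ∈ Ω) (hsa : SemiAlg Ω)
    (hne : (C ∩ Ω).Nonempty) : C ⊆ Ω := by
  classical
  obtain ⟨k, f, hf, hfs⟩ := hsa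
  obtain ⟨P, _, _, _, φ, ψ, hφ, hψφ, hφψ, hφC⟩ := hG.par
  have hφc : Continuous φ := hφ.continuous
  have hfc : ∀ i, Continuous (f i) := fun i => by
    obtain ⟨n, hn⟩ := hf i
    exact (diffr hn).1.continuous
  have hΩ' : ∀ γ ∈ K, ∀ x, hol γ x ∈ Ω → x ∈ Ω := fun γ hγ x hx => by
    have := hΩ γ⁻¹ (K.inv_mem hγ) _ hx
    rwa [hol_inv_apply] at this
  have hC' : ∀ γ, ∀ x, hol γ x ∈ C → x ∈ C := fun γ x hx => by
    have := hG.inv γ⁻¹ _ hx
    rwa [hol_inv_apply] at this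
  let I : Finset (Fin k) := Finset.univ.filter fun i => ∃ x ∈ C, f i x ≠ 0
  have hI : ∀ i ∉ I, ∀ x ∈ C, f i x = 0 := by
    intro i hi x hx
    by_contra h
    exact hi (Finset.mem_filter.2 ⟨Finset.mem_univ i, x, hx, h⟩)
  -- the product
  have hF : ∃ n, (∏ i ∈ I, f i) ∈ affF E ^ n := by
    have : ∀ J : Finset (Fin k), ∃ n, (∏ i ∈ J, f i) ∈ affF E ^ n := by
      intro J
      induction J using Finset.induction_on with
      | empty =>
        refine ⟨0, ?_⟩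
        rw [Finset.prod_empty]
        exact const_mem 0 1
      | insert a J ha ih =>
        obtain ⟨n, hn⟩ := ih
        obtain ⟨m, hm⟩ := hf a
        refine ⟨m + n, ?_⟩
        rw [Finset.prod_insert ha, pow_add]
        exact Submodule.mul_mem_mul hm hn
    exact this I
  obtain ⟨N, hN⟩ := hF
  have hFz : ∃ z : P, (∏ i ∈ I, f i) (φ z) ≠ 0 := by
    obtain ⟨d, hd⟩ := hφ
    obtain ⟨-, z, hz⟩ := prod_ne I (fun i y => f i (φ y)) (fun i _ => by
      obtain ⟨n, hn⟩ := hf i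
      exact ⟨d * n, comp_mem hd hn⟩) (fun i hi => by
      obtain ⟨-, x, hx, hfx⟩ := Finset.mem_filter.1 hi
      exact ⟨ψ x, by rw [hφψ x hx]; exact hfx⟩)
    refine ⟨z, ?_⟩
    rw [Finset.prod_apply] at hz ⊢
    exact hz
  -- the boundary
  by_contra hsub
  obtain ⟨x₁, hx₁C, hx₁Ω⟩ := hne
  obtain ⟨y₁, hy₁C, hy₁Ω⟩ := Set.not_subset.1 hsub
  let bd : Set E := {p | p ∈ C ∧ p ∈ closure (C ∩ Ω) ∧ p ∈ closure (C \ Ω)}
  have hbdne : bd.Nonempty := by
    let A : Set P := φ ⁻¹' Ω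
    have hA1 : ψ x₁ ∈ A := by show φ (ψ x₁) ∈ Ω; rwa [hφψ x₁ hx₁C]
    have hA2 : ψ y₁ ∉ A := by
      intro h
      have : φ (ψ y₁) ∈ Ω := h
      rw [hφψ y₁ hy₁C] at this
      exact hy₁Ω this
    have hfr : (frontier A).Nonempty := by
      rw [nonempty_frontier_iff]
      exact ⟨⟨_, hA1⟩, fun h => hA2 (by rw [h]; trivial)⟩
    obtain ⟨z, hz⟩ := hfr
    rw [frontier_eq_closure_inter_closure] at hz
    refine ⟨φ z, hφC z, ?_, ?_⟩
    · have h1 := image_closure_subset_closure_image hφc ⟨z, hz.1, rfl⟩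
      refine closure_mono ?_ h1
      rintro _ ⟨a, ha, rfl⟩
      exact ⟨hφC a, ha⟩
    · have h1 := image_closure_subset_closure_image hφc ⟨z, hz.2, rfl⟩
      refine closure_mono ?_ h1
      rintro _ ⟨a, ha, rfl⟩
      exact ⟨hφC a, ha⟩
  have hbdi : ∀ γ ∈ K, ∀ p ∈ bd, hol γ p ∈ bd := by
    rintro γ hγ p ⟨h1, h2, h3⟩
    refine ⟨hG.inv γ p h1, ?_, ?_⟩
    · have h4 := image_closure_subset_closure_image (hol_cont (hol γ)) ⟨p, h2, rfl⟩
      refine closure_mono ?_ h4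
      rintro _ ⟨a, ha, rfl⟩
      exact ⟨hG.inv γ a ha.1, hΩ γ hγ a ha.2⟩
    · have h4 := image_closure_subset_closure_image (hol_cont (hol γ)) ⟨p, h3, rfl⟩
      refine closure_mono ?_ h4
      rintro _ ⟨a, ha, rfl⟩
      exact ⟨hG.inv γ a ha.1, fun h => ha.2 (hΩ' γ hγ a h)⟩
  have hbd0 : ∀ p ∈ bd, (∏ i ∈ I, f i) p = 0 := by
    rintro p ⟨hpC, hp1, hp2⟩
    by_contra hne0
    rw [Finset.prod_apply, ← ne_eq, Finset.prod_ne_zero_iff] at hne0
    have hnear : ∀ᶠ y in 𝓝 p, ∀ i ∈ I, SignType.sign (f i y) = SignType.sign (f i p) := by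
      rw [Filter.eventually_all_finset]
      intro i hi
      rcases lt_or_gt_of_ne (hne0 i hi) with h | h
      · filter_upwards [(hfc i).continuousAt.eventually (gt_mem_nhds h)] with y hy
        rw [sign_neg hy, sign_neg h]
      · filter_upwards [(hfc i).continuousAt.eventually (lt_mem_nhds h)] with y hy
        rw [sign_pos hy, sign_pos h]
    have hall : ∀ᶠ y in 𝓝 p, y ∈ C → ∀ i, SignType.sign (f i y) = SignType.sign (f i p) := by
      filter_upwards [hnear] with y hy hyC i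
      by_cases hi : i ∈ I
      · exact hy i hi
      · rw [hI i hi y hyC, hI i hi p hpC]
    rw [mem_closure_iff_frequently] at hp1 hp2
    obtain ⟨y, ⟨hyC, hyΩ⟩, hy⟩ := (hp1.and_eventually hall).exists
    obtain ⟨y', ⟨hyC', hyΩ'⟩, hy'⟩ := (hp2.and_eventually hall).exists
    exact hyΩ' (hfs y y' (fun i => (hy hyC i).trans (hy' hyC' i).symm) hyΩ)
  -- the translates of the boundary
  have hKf : Finite (Γ ⧸ K) := inferInstance
  have hfin := Fintype.ofFinite (Γ ⧸ K)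
  let F : E → ℝ := ∏ i ∈ I, f i
  have hFN : F ∈ affF E ^ N := hN
  let δ : Γ ⧸ K → Γ := fun q => (q.out)⁻¹
  let g : Γ ⧸ K → E → ℝ := fun q x => F (hol (δ q) x)
  have hgN : ∀ q, g q ∈ affF E ^ N := fun q => comp_hol (δ q) hFN
  have hprod : ∃ M, (∏ q, g q) ∈ affF E ^ M := by
    have : ∀ J : Finset (Γ ⧸ K), ∃ M, (∏ q ∈ J, g q) ∈ affF E ^ M := by
      intro J
      induction J using Finset.induction_on with
      | empty =>
        refine ⟨0, ?_⟩
        rw [Finset.prod_empty]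
        exact const_mem 0 1
      | insert a J ha ih =>
        obtain ⟨n, hn⟩ := ih
        refine ⟨N + n, ?_⟩
        rw [Finset.prod_insert ha, pow_add]
        exact Submodule.mul_mem_mul (hgN a) hn
    exact this Finset.univ
  obtain ⟨M, hM⟩ := hprod
  obtain ⟨z, hz⟩ := hFz
  have hprodz : ∃ z : P, (∏ q, g q) (φ z) ≠ 0 := by
    obtain ⟨d, hd⟩ := hφ
    obtain ⟨-, z', hz'⟩ := prod_ne (Finset.univ : Finset (Γ ⧸ K)) (fun q y => g q (φ y))
      (fun q _ => ⟨d * N, comp_mem hd (hgN q)⟩) (fun q _ => by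
        have h1 : hol (δ q)⁻¹ (φ z) ∈ C := hG.inv _ _ (hφC z)
        refine ⟨ψ (hol (δ q)⁻¹ (φ z)), ?_⟩
        show F (hol (δ q) (φ (ψ (hol (δ q)⁻¹ (φ z))))) ≠ 0
        rw [hφψ _ h1, hol_apply_inv]
        exact hz)
    refine ⟨z', ?_⟩
    rw [Finset.prod_apply] at hz' ⊢
    exact hz'
  let W : Submodule ℝ (E → ℝ) :=
    { carrier := {u | u ∈ affF E ^ M ∧ ∀ γ : Γ, ∀ p, hol γ p ∈ bd → u p = 0}
      add_mem' := fun {a b} ha hb => ⟨Submodule.add_mem _ ha.1 hb.1, fun γ p hp => by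
        rw [Pi.add_apply, ha.2 γ p hp, hb.2 γ p hp, add_zero]⟩
      zero_mem' := ⟨Submodule.zero_mem _, fun _ _ _ => rfl⟩
      smul_mem' := fun c a ha => ⟨Submodule.smul_mem _ c ha.1, fun γ p hp => by
        rw [Pi.smul_apply, ha.2 γ p hp, smul_zero]⟩ }
  have hWi : ∀ γ, ∀ u ∈ W, (fun x => u (hol γ x)) ∈ W := by
    rintro γ u ⟨h1, h2⟩
    refine ⟨comp_hol γ h1, fun γ' p hp => h2 (γ' * γ⁻¹) _ ?_⟩
    rw [hol_mul, hol_inv_apply]
    exact hp
  have hmem : (∏ q, g q) ∈ W := by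
    refine ⟨hM, fun γ p hp => ?_⟩
    rw [Finset.prod_apply]
    let q : Γ ⧸ K := QuotientGroup.mk γ⁻¹
    have h1 : (q.out)⁻¹ * γ⁻¹ ∈ K := QuotientGroup.eq.1 (QuotientGroup.out_eq' q)
    refine Finset.prod_eq_zero (Finset.mem_univ q) ?_
    show F (hol (q.out)⁻¹ p) = 0
    have h2 : hol (q.out)⁻¹ p ∈ bd := by
      have h3 := hbdi _ h1 _ hp
      rwa [hol_mul, hol_inv_apply] at h3
    exact hbd0 _ h2
  obtain ⟨z', hz'⟩ := hprodz
  obtain ⟨u, hu, huC⟩ := nonvanishing hS hgen hG.inv hG.star (N := M) (W := W) (fun g hg => hg.1)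
    hWi ⟨_, hmem, φ z', hφC z', hz'⟩
  obtain ⟨p, hp⟩ := hbdne
  refine huC p hp.1 (hu.2 1 p ?_)
  rw [map_one]
  exact hp

/-- equivariant polynomial maps to irreducible representations are constant on `C` -/
theorem const_irr (hS : ∀ s ∈ S, s⁻¹ ∈ S) (hgen : Subgroup.closure (S : Set Γ) = ⊤)
    (hG : Good X S hol C) {Q : Type} [NormedAddCommGroup Q] [NormedSpace ℝ Q]
    [FiniteDimensional ℝ Q] (σ : Representation ℝ Γ Q)
    (hirr : ∀ U : Submodule ℝ Q, (∀ γ, ∀ v ∈ U, σ γ v ∈ U) → U = ⊥ ∨ U = ⊤) {q : E → Q}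
    (hq : IsPol q) (hqe : ∀ γ, ∀ x ∈ C, q (hol γ x) = σ γ (q x)) {x y : E} (hx : x ∈ C)
    (hy : y ∈ C) : q x = q y := by
  rcases subsingleton_or_nontrivial Q with h | h
  · exact Subsingleton.elim _ _
  · obtain ⟨m, ρ, e, hρ, he⟩ := exists_bal hS hgen σ hirr
    have h1 := hG.star (Eu m) ρ hρ (fun x => e (q x))
      ((IsPol.linear (e : Q →ₗ[ℝ] Eu m)).comp hq) (fun γ x hx => by rw [hqe γ x hx, he]) x hx y hy
    exact e.injective h1

end Pool.Agent.U352.SB
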