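import Pool.Agent.U352.SA.Zar
import Pool.Agent.Y150.Ch.Fc

/-!
Existence of a contractible invariant set which is minimal in the Zariski topology, with extensions
of maps that are equivariant for a subgroup of finite index.
-/

set_option autoImplicit false
set_option linter.unusedSectionVars false

open Filter Topology
open scoped InnerProductSpace TensorProduct

namespace Pool.Agent.U352.SB

open Pool.Agent.W689.Mk (lin hol_add hol_sub hol_inv_apply hol_apply_inv lin_inv_apply lin_mul)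
open Pool.Agent.U352.AF (LInv lin_apply_inv hol_mul IsQuot exists_quot)
open Pool.Agent.W689.Ch (Wt)
open Pool.Agent.U352.SA

variable {Γ : Type} [Group Γ]

/-- the map `r` is close to `d` near the points which `d` maps to `C` -/
def Est {X E : Type} [TopologicalSpace X] [NormedAddCommGroup E] (d r : X → E) (C : Set E)
    (x : X) : Prop :=
  ∃ U ∈ 𝓝 x, ∃ V ∈ 𝓝 (d x), ∃ B : ℝ, 0 ≤ B ∧ ∀ y ∈ U, ∀ c ∈ C, c ∈ V →
    ‖r y - d y‖ ≤ B * ‖d y - c‖

theorem lin_bd {E F : Type} [NormedAddCommGroup E] [NormedSpace ℝ E] [FiniteDimensional ℝ E]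
    [NormedAddCommGroup F] [NormedSpace ℝ F] (T : E →ₗ[ℝ] F) :
    ∃ M : ℝ, 0 ≤ M ∧ ∀ x, ‖T x‖ ≤ M * ‖x‖ :=
  ⟨‖LinearMap.toContinuousLinearMap T‖, norm_nonneg _,
    (LinearMap.toContinuousLinearMap T).le_opNorm⟩

theorem contDiff_pol {E F : Type} [NormedAddCommGroup E] [NormedSpace ℝ E] [FiniteDimensional ℝ E]
    [NormedAddCommGroup F] [NormedSpace ℝ F] [FiniteDimensional ℝ F] {q : E → F} (hq : IsPol q) :
    ContDiff ℝ 1 q := by
  obtain ⟨n, hn⟩ := hq
  rw [contDiff_one_iff_fderiv]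
  refine ⟨hn.diff, continuous_clm_apply.2 fun v => ?_⟩
  have h1 : IsPolN n (fun x => fderiv ℝ q x v) := (hn.mono (Nat.le_succ n)).deriv v
  exact IsPol.continuous ⟨n, h1⟩

theorem est_avx {Γ X E : Type} [Group Γ] [TopologicalSpace X] [MulAction Γ X]
    [NormedAddCommGroup E] [NormedSpace ℝ E] [FiniteDimensional ℝ E] (hol : Γ →* (E ≃ᵃ[ℝ] E))
    (hc : ∀ γ : Γ, Continuous fun x : X => γ • x) {w : X → ℝ} (hw : Wt Γ w) {C : Set E}
    (hC : ∀ γ, ∀ x ∈ C, hol γ x ∈ C) {d r : X → E}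
    (hde : ∀ (γ : Γ) (x : X), d (γ • x) = hol γ (d x)) (hr : ∀ x, d x ∈ C → Est d r C x) (x : X)
    (hx : d x ∈ C) : Est d (avx hol w r) C x := by
  classical
  obtain ⟨U₀, hU₀, F, hF⟩ := hw.locfin x
  have hγ : ∀ γ : Γ, Est d r C (γ • x) := fun γ => hr _ (by rw [hde]; exact hC γ _ hx)
  choose U hU V hV B hB0 hB using hγ
  have hM : ∀ γ : Γ, ∃ M : ℝ, 0 ≤ M ∧ ∀ v, ‖lin hol γ v‖ ≤ M * ‖v‖ := fun γ =>
    lin_bd ((hol γ).linear : E →ₗ[ℝ] E)
  choose M hM0 hM using hM
  let N : Γ → ℝ := fun γ => M γ⁻¹ * (B γ * M γ)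
  have hN0 : ∀ γ, 0 ≤ N γ := fun γ => mul_nonneg (hM0 _) (mul_nonneg (hB0 _) (hM0 _))
  refine ⟨U₀ ∩ ⋂ γ ∈ F, (fun y : X => γ • y) ⁻¹' U γ, ?_, ⋂ γ ∈ F, hol γ ⁻¹' V γ, ?_,
    ∑ γ ∈ F, N γ, Finset.sum_nonneg fun γ _ => hN0 γ, ?_⟩
  · refine inter_mem hU₀ ((Filter.biInter_finset_mem F).2 fun γ _ => ?_)
    exact (hc γ).continuousAt.preimage_mem_nhds (hU γ)
  · refine (Filter.biInter_finset_mem F).2 fun γ _ => ?_
    refine (hol_cont (hol γ)).continuousAt.preimage_mem_nhds ?_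
    rw [← hde]
    exact hV γ
  · rintro y ⟨hy₀, hy⟩ c hc hcV
    have hy' : ∀ γ ∈ F, γ • y ∈ U γ := fun γ h => Set.mem_iInter₂.1 hy γ h
    have hcV' : ∀ γ ∈ F, hol γ c ∈ V γ := fun γ h => Set.mem_iInter₂.1 hcV γ h
    have e1 : avx hol w r y = ∑ γ ∈ F, w (γ • y) • hol γ⁻¹ (r (γ • y)) :=
      tsum_eq_sum fun γ hγ => by rw [hF γ hγ y hy₀, zero_smul]
    have e2 : ∑ γ ∈ F, w (γ • y) = 1 := by
      rw [← hw.sum y]
      exact (tsum_eq_sum fun γ hγ => hF γ hγ y hy₀).symm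
    have e3 : avx hol w r y - d y = ∑ γ ∈ F, w (γ • y) • lin hol γ⁻¹ (r (γ • y) - d (γ • y)) := by
      have h1 : d y = ∑ γ ∈ F, w (γ • y) • d y := by rw [← Finset.sum_smul, e2, one_smul]
      rw [e1]
      conv_lhs => rw [h1]
      rw [← Finset.sum_sub_distrib]
      refine Finset.sum_congr rfl fun γ _ => ?_
      rw [← smul_sub, ← hol_sub, hde, hol_inv_apply]
    rw [e3, Finset.sum_mul]
    refine (norm_sum_le _ _).trans (Finset.sum_le_sum fun γ hγ => ?_)
    have hw1 : w (γ • y) ≤ 1 := by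
      rw [← e2]
      exact Finset.single_le_sum (f := fun γ => w (γ • y)) (fun δ _ => hw.nonneg _) hγ
    have h2 : ‖r (γ • y) - d (γ • y)‖ ≤ B γ * (M γ * ‖d y - c‖) := by
      refine (hB γ _ (hy' γ hγ) _ (hC γ c hc) (hcV' γ hγ)).trans ?_
      refine mul_le_mul_of_nonneg_left ?_ (hB0 γ)
      rw [hde, hol_sub]
      exact hM γ _
    have h3 : ‖lin hol γ⁻¹ (r (γ • y) - d (γ • y))‖ ≤ N γ * ‖d y - c‖ := by
      refine (hM _ _).trans ?_
      refine (mul_le_mul_of_nonneg_left h2 (hM0 _)).trans (le_of_eq ?_)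
      show _ = M γ⁻¹ * (B γ * M γ) * ‖d y - c‖
      ring
    rw [norm_smul, Real.norm_of_nonneg (hw.nonneg _)]
    refine (mul_le_mul hw1 h3 (norm_nonneg _) zero_le_one).trans (le_of_eq (one_mul _))

/-- the good sets -/
structure Good (X : Type) [TopologicalSpace X] [MulAction Γ X] {E : Type} [NormedAddCommGroup E]
    [NormedSpace ℝ E] (S : Finset Γ) (hol : Γ →* (E ≃ᵃ[ℝ] E)) (C : Set E) : Prop where
  ne : C.Nonempty
  inv : ∀ γ, ∀ x ∈ C, hol γ x ∈ C
  star : SA.Star S hol C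
  par : ∃ (P : Type) (_ : NormedAddCommGroup P) (_ : NormedSpace ℝ P) (_ : FiniteDimensional ℝ P)
    (φ : P → E) (ψ : E →ₗ[ℝ] P), IsPol φ ∧ (∀ y, ψ (φ y) = y) ∧ (∀ x ∈ C, φ (ψ x) = x) ∧
      ∀ y, φ y ∈ C
  ext : ∀ K : Subgroup Γ, K.FiniteIndex → ∀ d : X → E, Continuous d →
    (∀ γ ∈ K, ∀ x : X, d (γ • x) = hol γ (d x)) →
    ∃ r : X → E, Continuous r ∧ (∀ x, r x ∈ C) ∧ (∀ γ ∈ K, ∀ x : X, r (γ • x) = hol γ (r x)) ∧
      (∀ x, d x ∈ C → r x = d x) ∧ ∀ x, d x ∈ C → Est d r C x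

section
variable {X : Type} [TopologicalSpace X] [MulAction Γ X] {S : Finset Γ}

theorem exists_good (hc : ∀ γ : Γ, Continuous fun x : X => γ • x) (hwK : ∀ K : Subgroup Γ, K.FiniteIndex → ∃ w : X → ℝ, Wt K w)
    (hS : ∀ s ∈ S, s⁻¹ ∈ S) (hgen : Subgroup.closure (S : Set Γ) = ⊤) (n : ℕ) :
    ∀ (E : Type) [NormedAddCommGroup E] [NormedSpace ℝ E] [FiniteDimensional ℝ E]
      (hol : Γ →* (E ≃ᵃ[ℝ] E)), Module.finrank ℝ E = n → ∃ C : Set E, Good X S hol C := by
  classical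
  induction n using Nat.strong_induction_on with
  | _ n ih =>
  intro E _ _ _ hol hn
  rcases subsingleton_or_nontrivial E with hE | hE
  · refine ⟨Set.univ, ⟨0, trivial⟩, fun _ _ _ => trivial, ?_, ?_, ?_⟩
    · intro Q _ _ _ ρ _ q _ _ x _ y _
      rw [Subsingleton.elim x y]
    · exact ⟨E, inferInstance, inferInstance, inferInstance, fun x => x, LinearMap.id,
        IsPol.linear LinearMap.id, fun _ => rfl, fun _ _ => rfl, fun _ => trivial⟩
    · refine fun K _ d hd he => ⟨d, hd, fun _ => trivial, he, fun _ _ => rfl, fun x _ => ?_⟩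
      refine ⟨Set.univ, Filter.univ_mem, Set.univ, Filter.univ_mem, 0, le_rfl, fun y _ c _ _ => ?_⟩
      rw [sub_self, norm_zero, zero_mul]
  obtain ⟨V, hV0, hV, hmin⟩ := exists_minimal_inv hol
  have hVn : Nontrivial V := Submodule.nontrivial_iff_ne_bot.2 hV0
  have hirr : ∀ W : Submodule ℝ V, (∀ γ, ∀ v ∈ W, subRep hV γ v ∈ W) → W = ⊥ ∨ W = ⊤ := by
    intro W hW
    have h1 : LInv hol (W.map V.subtype) := by
      rintro γ _ ⟨v, hv, rfl⟩
      exact ⟨subRep hV γ v, hW γ v hv, rfl⟩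
    rcases hmin _ (Submodule.map_subtype_le V W) h1 with h | h
    · left
      rw [eq_bot_iff]
      intro v hv
      have h2 : (v : E) ∈ W.map V.subtype := ⟨v, hv, rfl⟩
      rw [h, Submodule.mem_bot] at h2
      exact Subtype.ext h2
    · right
      rw [eq_top_iff]
      intro v _
      have h2 : (v : E) ∈ W.map V.subtype := by rw [h]; exact v.2
      obtain ⟨u, hu, hu'⟩ := h2
      rwa [← Subtype.ext hu']
  obtain ⟨m, ρV, e, hρV, he⟩ := exists_bal hS hgen (subRep hV) hirr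
  obtain ⟨Q, _, _, _, π, hol₁, hq⟩ := exists_quot hV
  have hfr : Module.finrank ℝ Q < n := by
    have h1 := LinearMap.finrank_range_add_finrank_ker π
    rw [LinearMap.range_eq_top.2 hq.surj, finrank_top] at h1
    have h2 : LinearMap.ker π = V := by
      ext x
      exact hq.ker x
    rw [h2, hn] at h1
    have h3 : 0 < Module.finrank ℝ V := Module.finrank_pos
    omega
  obtain ⟨B, hB⟩ := ih _ hfr Q hol₁ rfl
  obtain ⟨c, hcπ⟩ := π.exists_rightInverse_of_surjective (LinearMap.range_eq_top.2 hq.surj)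
  have hπc : ∀ b, π (c b) = b := fun b => LinearMap.congr_fun hcπ b
  have hcV : ∀ x, x - c (π x) ∈ V := fun x => by
    rw [← hq.eq_iff, hπc]
  have hπV : ∀ (x : E), ∀ v ∈ V, π (x + v) = π x := by
    intro x v hv
    rw [map_add, (hq.ker v).2 hv, add_zero]
  set C₁ : Set E := {x | π x ∈ B} with hC₁
  have hCV : ∀ x ∈ C₁, ∀ v ∈ V, x + v ∈ C₁ := by
    intro x hx v hv
    show π (x + v) ∈ B
    rw [hπV x v hv]
    exact hx
  have hCi : ∀ γ, ∀ x ∈ C₁, hol γ x ∈ C₁ := by
    intro γ x hx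
    show π (hol γ x) ∈ B
    rw [← hq.equi]
    exact hB.inv γ _ hx
  have hcB : ∀ b ∈ B, c b ∈ C₁ := fun b hb => by
    show π (c b) ∈ B
    rwa [hπc]
  have hπcont : Continuous π := π.continuous_of_finiteDimensional
  have hccont : Continuous c := c.continuous_of_finiteDimensional
  obtain ⟨P', _, _, _, φ', ψ', hφ', hψφ, hφψ, hφB⟩ := hB.par
  by_cases hstar : SA.Star S hol C₁
  · refine ⟨C₁, ?_, hCi, hstar, ?_, ?_⟩
    · obtain ⟨b, hb⟩ := hB.ne
      exact ⟨c b, hcB b hb⟩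
    · let ψ : E →ₗ[ℝ] P' × V := LinearMap.prod (ψ' ∘ₗ π)
        (LinearMap.codRestrict V (LinearMap.id - c ∘ₗ π) fun x => hcV x)
      refine ⟨P' × V, inferInstance, inferInstance, inferInstance,
        fun p => c (φ' p.1) + (p.2 : E), ψ, ?_, ?_, ?_, ?_⟩
      · refine IsPol.add ?_ (IsPol.linear (V.subtype ∘ₗ LinearMap.snd ℝ P' V))
        exact (IsPol.linear c).comp (hφ'.comp (IsPol.linear (LinearMap.fst ℝ P' V)))
      · rintro ⟨a, v⟩
        have h1 : π (c (φ' a) + (v : E)) = φ' a := by rw [hπV _ _ v.2, hπc]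
        refine Prod.ext ?_ (Subtype.ext ?_)
        · show ψ' (π (c (φ' a) + (v : E))) = a
          rw [h1, hψφ]
        · show (c (φ' a) + (v : E)) - c (π (c (φ' a) + (v : E))) = v
          rw [h1, add_sub_cancel_left]
      · intro x hx
        show c (φ' (ψ' (π x))) + (x - c (π x)) = x
        rw [hφψ _ hx, add_sub_cancel]
      · rintro ⟨a, v⟩
        exact hCV _ (hcB _ (hφB a)) v v.2
    · intro K hK d hd hde
      obtain ⟨w, hw⟩ := hwK K hK
      have hcK : ∀ γ : K, Continuous fun x : X => γ • x := fun γ => hc γ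
      obtain ⟨rB, h1, h2, h3, h4, h5⟩ := hB.ext K hK (fun x => π (d x)) (hπcont.comp hd)
        (fun γ hγ x => by rw [hde γ hγ, hq.equi])
      let r₀ : X → E := fun x => c (rB x) + (d x - c (π (d x)))
      have hr₀ : Continuous r₀ := (hccont.comp h1).add (hd.sub (hccont.comp (hπcont.comp hd)))
      have hπr₀ : ∀ x, π (r₀ x) = rB x := fun x => by
        show π (c (rB x) + (d x - c (π (d x)))) = _
        rw [hπV _ _ (hcV _), hπc]
      let holK : K →* (E ≃ᵃ[ℝ] E) := hol.comp K.subtype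
      refine ⟨avx holK w r₀, avx_cont holK hcK hw hr₀, fun x => ?_,
        fun γ hγ x => avx_equi holK hw r₀ ⟨γ, hγ⟩ x, fun x hx => ?_,
        est_avx holK hcK hw (fun γ => hCi γ) (fun γ x => hde γ γ.2 x) fun x hx => ?_⟩
      · obtain ⟨F, e1, e2, -⟩ := avx_sum holK hw r₀ x
        show π (avx holK w r₀ x) ∈ B
        have h7 : π (avx holK w r₀ x) = rB x := by
          rw [e1, map_sum]
          have h6 : ∀ γ ∈ F, π (w (γ • x) • holK γ⁻¹ (r₀ (γ • x))) = w (γ • x) • rB x := by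
            intro γ _
            rw [map_smul]
            show w (γ • x) • π (hol (γ : Γ)⁻¹ (r₀ ((γ : Γ) • x))) = _
            rw [← hq.equi, hπr₀, h3 γ γ.2, hol_inv_apply]
          rw [Finset.sum_congr rfl h6, ← Finset.sum_smul, e2, one_smul]
        rw [h7]
        exact h2 x
      · obtain ⟨F, e1, e2, -⟩ := avx_sum holK hw r₀ x
        rw [e1]
        have h6 : ∀ γ ∈ F, w (γ • x) • holK γ⁻¹ (r₀ (γ • x)) = w (γ • x) • d x := by
          intro γ _
          have h7 : d ((γ : Γ) • x) ∈ C₁ := by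
            rw [hde γ γ.2]
            exact hCi γ _ hx
          have h8 : r₀ ((γ : Γ) • x) = d ((γ : Γ) • x) := by
            show c (rB ((γ : Γ) • x)) + (d ((γ : Γ) • x) - c (π (d ((γ : Γ) • x)))) = _
            rw [h4 _ h7, add_sub_cancel]
          show w (γ • x) • hol (γ : Γ)⁻¹ (r₀ ((γ : Γ) • x)) = _
          rw [h8, hde γ γ.2, hol_inv_apply]
        rw [Finset.sum_congr rfl h6, ← Finset.sum_smul, e2, one_smul]
      · obtain ⟨U, hU, V, hV, b, hb0, hb⟩ := h5 x hx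
        obtain ⟨Mc, hMc0, hMc⟩ := lin_bd c
        obtain ⟨Mπ, hMπ0, hMπ⟩ := lin_bd π
        refine ⟨U, hU, π ⁻¹' V, hπcont.continuousAt.preimage_mem_nhds hV, Mc * (b * Mπ),
          mul_nonneg hMc0 (mul_nonneg hb0 hMπ0), fun y hy e₁ he₁ hVe => ?_⟩
        have e1 : r₀ y - d y = c (rB y - π (d y)) := by
          show c (rB y) + (d y - c (π (d y))) - d y = _
          rw [map_sub]
          abel
        rw [e1]
        refine (hMc _).trans ?_
        rw [mul_assoc]
        refine mul_le_mul_of_nonneg_left ?_ hMc0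
        refine (hb y hy (π e₁) he₁ hVe).trans ?_
        rw [mul_assoc]
        refine mul_le_mul_of_nonneg_left ?_ hb0
        rw [← map_sub]
        exact hMπ _
  · -- the section
    unfold SA.Star at hstar
    push Not at hstar
    obtain ⟨Q₀, _, _, _, ρ₀, hρ₀, q₀, ⟨k, hq₀⟩, he₀, x₀, hx₀, y₀, hy₀, hne₀⟩ := hstar
    obtain ⟨Q', _, _, _, ρ', q, hρ', hqp, hqe, ⟨x₁, hx₁, y₁, hy₁, hne₁⟩, hqd⟩ :=
      reduce hV hCV hρV e (fun γ v => he γ v) k Q₀ ρ₀ hρ₀ q₀ hq₀ he₀ ⟨x₀, hx₀, y₀, hy₀, hne₀⟩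
    have hdq : Differentiable ℝ q := by
      obtain ⟨k', hk'⟩ := hqp
      exact hk'.diff
    let T : V →ₗ[ℝ] Q' := (fderiv ℝ q x₁ : E →ₗ[ℝ] Q') ∘ₗ V.subtype
    have hT : ∀ x ∈ C₁, ∀ v : V, fderiv ℝ q x v = T v := fun x hx v =>
      hqd x hx x₁ hx₁ v v.2
    have hqT : ∀ x ∈ C₁, ∀ v : V, q (x + v) = q x + T v := fun x hx v =>
      of_deriv_const hdq fun t => hT _ (hCV x hx _ (V.smul_mem t v.2)) v
    have hTe : ∀ γ v, T (subRep hV γ v) = ρ' γ (T v) := by
      intro γ v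
      have h1 := deriv_equi hdq hCV hqe γ hx₁ v.2
      have h2 := hT (hol γ x₁) (hCi γ _ hx₁) (subRep hV γ v)
      rw [← h2]
      exact h1
    have hTi : Function.Injective T := by
      rw [← LinearMap.ker_eq_bot]
      have hk : ∀ γ, ∀ v ∈ LinearMap.ker T, subRep hV γ v ∈ LinearMap.ker T := by
        intro γ v hv
        rw [LinearMap.mem_ker] at hv ⊢
        rw [hTe, hv, map_zero]
      rcases hirr _ hk with h | h
      · exact h
      · exfalso
        have hT0 : ∀ v, T v = 0 := fun v => by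
          have : v ∈ LinearMap.ker T := by rw [h]; trivial
          exact this
        have hqV : ∀ x ∈ C₁, ∀ y, x - y ∈ V → q y = q x := by
          intro x hx y hxy
          have h1 : y - x ∈ V := by rw [← neg_sub]; exact V.neg_mem hxy
          have h2 := hqT x hx ⟨y - x, h1⟩
          rw [hT0, add_zero] at h2
          have h3 : x + ((⟨y - x, h1⟩ : V) : E) = y := add_sub_cancel x y
          rw [h3] at h2
          exact h2
        have hBs := hB.star Q' ρ' hρ' (fun b => q (c b)) (hqp.comp (IsPol.linear c))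
          (fun γ b hb => by
            rw [← hqe γ _ (hcB b hb)]
            refine hqV _ (hCi γ _ (hcB b hb)) _ ?_
            rw [← hq.eq_iff, hπc, ← hq.equi, hπc])
        apply hne₁
        have h5 : ∀ x ∈ C₁, q (c (π x)) = q x := fun x hx => hqV x hx _ (hcV x)
        rw [← h5 x₁ hx₁, ← h5 y₁ hy₁]
        exact hBs _ hx₁ _ hy₁
    obtain ⟨l, hl1, hl2⟩ := exists_left_inv hS hgen hρ' (subRep hV) T hTi hTe
    let sec : Q → E := fun b => c b - (l (q (c b)) : E)
    have hπsec : ∀ b, π (sec b) = b := by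
      intro b
      show π (c b - (l (q (c b)) : E)) = b
      rw [map_sub, (hq.ker _).2 (l (q (c b))).2, sub_zero, hπc]
    have hsecx : ∀ x ∈ C₁, sec (π x) = x - (l (q x) : E) := by
      intro x hx
      have h1 := hqT (c (π x)) (hcB _ hx) ⟨x - c (π x), hcV x⟩
      have h2 : c (π x) + ((⟨x - c (π x), hcV x⟩ : V) : E) = x := add_sub_cancel _ _
      rw [h2] at h1
      show c (π x) - (l (q (c (π x))) : E) = x - (l (q x) : E)
      rw [h1, map_add, hl1]
      show c (π x) - (l (q (c (π x))) : E) = x - ((l (q (c (π x))) : E) + (x - c (π x)))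
      abel
    have hsece : ∀ γ, ∀ b ∈ B, sec (hol₁ γ b) = hol γ (sec b) := by
      intro γ b hb
      have hx := hcB b hb
      have h1 : hol₁ γ b = π (hol γ (c b)) := by rw [← hq.equi, hπc]
      rw [h1, hsecx _ (hCi γ _ hx), hqe γ _ hx, hl2]
      have h2 : sec b = c b + -(l (q (c b)) : E) := sub_eq_add_neg _ _
      rw [h2, hol_add]
      show hol γ (c b) - (hol γ).linear (l (q (c b)) : E) = _
      rw [sub_eq_add_neg]
      congr 1
      exact (map_neg ((hol γ).linear : E →ₗ[ℝ] E) _).symm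
    have hsecP : IsPol sec := by
      refine IsPol.sub (IsPol.linear c) ?_
      exact (IsPol.linear (V.subtype ∘ₗ l)).comp (hqp.comp (IsPol.linear c))
    have hsecc : Continuous sec := hsecP.continuous
    refine ⟨sec '' B, ?_, ?_, ?_, ?_, ?_⟩
    · exact hB.ne.image sec
    · rintro γ _ ⟨b, hb, rfl⟩
      exact ⟨hol₁ γ b, hB.inv γ b hb, hsece γ b hb⟩
    · intro Q₂ _ _ _ ρ₂ hρ₂ q₂ hq₂ he₂ x hx y hy
      obtain ⟨a, ha, rfl⟩ := hx
      obtain ⟨b, hb, rfl⟩ := hy
      exact hB.star Q₂ ρ₂ hρ₂ (fun b => q₂ (sec b)) (hq₂.comp hsecP)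
        (fun γ b hb => by rw [hsece γ b hb, he₂ γ _ ⟨b, hb, rfl⟩]) a ha b hb
    · refine ⟨P', inferInstance, inferInstance, inferInstance, fun y => sec (φ' y), ψ' ∘ₗ π,
        hsecP.comp hφ', fun y => ?_, ?_, fun y => ⟨φ' y, hφB y, rfl⟩⟩
      · show ψ' (π (sec (φ' y))) = y
        rw [hπsec, hψφ]
      · rintro _ ⟨b, hb, rfl⟩
        show sec (φ' (ψ' (π (sec b)))) = sec b
        rw [hπsec, hφψ b hb]
    · intro K hK d hd hde
      obtain ⟨rB, h1, h2, h3, h4, h5⟩ := hB.ext K hK (fun x => π (d x)) (hπcont.comp hd)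
        (fun γ hγ x => by rw [hde γ hγ, hq.equi])
      refine ⟨fun x => sec (rB x), hsecc.comp h1, fun x => ⟨rB x, h2 x, rfl⟩,
        fun γ hγ x => by
          show sec (rB (γ • x)) = hol γ (sec (rB x))
          rw [h3 γ hγ, hsece γ _ (h2 x)], fun x hx => ?_, fun x hx => ?_⟩
      · obtain ⟨b, hb, hbx⟩ := hx
        have h7 : π (d x) = b := by rw [← hbx, hπsec]
        have h6 := h4 x (by show π (d x) ∈ B; rw [h7]; exact hb)
        show sec (rB x) = d x
        rw [h6]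
        show sec (π (d x)) = d x
        rw [h7, hbx]
      · obtain ⟨b₀, hb₀, hbx⟩ := hx
        have h7 : π (d x) = b₀ := by rw [← hbx, hπsec]
        have hxB : π (d x) ∈ B := by rw [h7]; exact hb₀
        obtain ⟨U, hU, V, hV, b, hb0, hb⟩ := h5 x hxB
        obtain ⟨Mπ, hMπ0, hMπ⟩ := lin_bd π
        obtain ⟨L, t, ht, hL⟩ := ((contDiff_pol hsecP).contDiffAt (x := π (d x))).exists_lipschitzOnWith
        have hπd : Continuous fun y => π (d y) := hπcont.comp hd
        refine ⟨U ∩ ((rB ⁻¹' t) ∩ ((fun y => π (d y)) ⁻¹' t)), ?_, (π ⁻¹' V) ∩ (π ⁻¹' t), ?_,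
          L * (b * Mπ) + L * Mπ + 1, by positivity, ?_⟩
        · refine inter_mem hU (inter_mem (h1.continuousAt.preimage_mem_nhds ?_)
            (hπd.continuousAt.preimage_mem_nhds ht))
          rw [h4 x hxB]
          exact ht
        · exact inter_mem (hπcont.continuousAt.preimage_mem_nhds hV)
            (hπcont.continuousAt.preimage_mem_nhds ht)
        · rintro y ⟨hyU, hy1, hy2⟩ _ ⟨b', hb', rfl⟩ ⟨hV1, hV2⟩
          have hV1' : b' ∈ V := by
            have : π (sec b') ∈ V := hV1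
            rwa [hπsec] at this
          have hV2' : b' ∈ t := by
            have : π (sec b') ∈ t := hV2
            rwa [hπsec] at this
          have k1 : ‖sec (rB y) - sec (π (d y))‖ ≤ L * ‖rB y - π (d y)‖ := by
            have := hL.dist_le_mul _ hy1 _ hy2
            rwa [dist_eq_norm, dist_eq_norm] at this
          have k2 : ‖sec (π (d y)) - sec b'‖ ≤ L * ‖π (d y) - b'‖ := by
            have := hL.dist_le_mul _ hy2 _ hV2'
            rwa [dist_eq_norm, dist_eq_norm] at this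
          have k3 : ‖rB y - π (d y)‖ ≤ b * ‖π (d y) - b'‖ := hb y hyU b' hb' hV1'
          have k4 : ‖π (d y) - b'‖ ≤ Mπ * ‖d y - sec b'‖ := by
            have := hMπ (d y - sec b')
            rwa [map_sub, hπsec] at this
          have k5 : ‖sec b' - d y‖ = ‖d y - sec b'‖ := norm_sub_rev _ _
          have k6 : sec (rB y) - d y = (sec (rB y) - sec (π (d y))) + (sec (π (d y)) - sec b') +
              (sec b' - d y) := by abel
          show ‖sec (rB y) - d y‖ ≤ _
          rw [k6]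
          have hL0 : (0 : ℝ) ≤ L := L.coe_nonneg
          have k7 := mul_le_mul_of_nonneg_left k4 hL0
          have k8 := mul_le_mul_of_nonneg_left k4 hb0
          have k9 := mul_le_mul_of_nonneg_left (k3.trans k8) hL0
          calc _ ≤ ‖sec (rB y) - sec (π (d y))‖ + ‖sec (π (d y)) - sec b'‖ + ‖sec b' - d y‖ :=
                norm_add₃_le
            _ ≤ L * (b * (Mπ * ‖d y - sec b'‖)) + L * (Mπ * ‖d y - sec b'‖) + ‖d y - sec b'‖ :=
                add_le_add (add_le_add (k1.trans k9) (k2.trans k7)) k5.le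
            _ = (L * (b * Mπ) + L * Mπ + 1) * ‖d y - sec b'‖ := by ring

end

end Pool.Agent.U352.SB
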