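import Pool.Agent.U352.SB.Tan
import Pool.Agent.U352.SB.Dich
import Pool.Agent.TH845.Mk.Out

/-!
The algebraic core of a closed affine manifold.
-/

set_option autoImplicit false
set_option linter.unusedSectionVars false

open Filter Topology
open scoped InnerProductSpace TensorProduct

namespace Pool.Agent.U352.SB

open Pool.Agent.W689.Mk (lin hol_add hol_sub hol_inv_apply hol_apply_inv lin_inv_apply lin_mul)
open Pool.Agent.W689.Ch (Wt AffMfd exists_wt ext_compact locComp)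
open Pool.Agent.Y150.Ch (restr)
open Pool.Agent.TH845.Mk (compact_disjoint)
open Pool.Agent.U352.SA

variable {X Γ E : Type} [TopologicalSpace X] [T2Space X] [Group Γ] [MulAction Γ X]
  [NormedAddCommGroup E] [NormedSpace ℝ E] [FiniteDimensional ℝ E] {dev : X → E}
  {hol : Γ →* (E ≃ᵃ[ℝ] E)}

theorem fg_of_mfd [ConnectedSpace X] (D : AffMfd X Γ E dev hol) : Group.FG Γ := by
  have := locComp D
  obtain ⟨K, hK, hcc⟩ := D.cc
  obtain ⟨L, hL, hKL⟩ := exists_compact_superset hK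
  have hF := D.pd L hL
  set F := {γ : Γ | ∃ x ∈ L, γ • x ∈ L} with hFdef
  let H : Subgroup Γ := Subgroup.closure F
  have hmem : ∀ γ, γ ∈ F → γ ∈ H := fun γ hγ => Subgroup.subset_closure hγ
  let U : Set X := ⋃ γ ∈ (H : Set Γ), (fun x : X => γ • x) ⁻¹' interior L
  let W : Set X := ⋃ γ ∈ (H : Set Γ)ᶜ, (fun x : X => γ • x) ⁻¹' interior L
  have hU : IsOpen U := isOpen_biUnion fun γ _ => isOpen_interior.preimage (D.cont γ)
  have hW : IsOpen W := isOpen_biUnion fun γ _ => isOpen_interior.preimage (D.cont γ)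
  have hcc' : ∀ x, ∃ γ : Γ, γ • x ∈ K := by
    intro x
    obtain ⟨γ, k, hk, rfl⟩ := hcc x
    exact ⟨γ⁻¹, by rwa [inv_smul_smul]⟩
  have hcov : (Set.univ : Set X) ⊆ U ∪ W := by
    intro x _
    obtain ⟨γ, hγ⟩ := hcc' x
    by_cases h : γ ∈ H
    · exact Or.inl (Set.mem_iUnion₂.2 ⟨γ, h, hKL hγ⟩)
    · exact Or.inr (Set.mem_iUnion₂.2 ⟨γ, h, hKL hγ⟩)
  have hdisj : ∀ x, x ∈ U → x ∈ W → False := by
    intro x hxU hxW
    obtain ⟨γ, hγ, h1⟩ := Set.mem_iUnion₂.1 hxU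
    obtain ⟨δ, hδ, h2⟩ := Set.mem_iUnion₂.1 hxW
    apply hδ
    have h3 : δ * γ⁻¹ ∈ F := by
      refine ⟨γ • x, interior_subset h1, ?_⟩
      rw [smul_smul, inv_mul_cancel_right]
      exact interior_subset h2
    have h4 : δ * γ⁻¹ * γ ∈ H := H.mul_mem (hmem _ h3) hγ
    rwa [inv_mul_cancel_right] at h4
  obtain ⟨x₀⟩ : Nonempty X := inferInstance
  obtain ⟨γ₀, hγ₀⟩ := hcc' x₀
  obtain ⟨k, hk⟩ : ∃ k, k ∈ K := ⟨_, hγ₀⟩
  have hkU : k ∈ U := Set.mem_iUnion₂.2 ⟨1, H.one_mem, by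
    show (1 : Γ) • k ∈ interior L
    rw [one_smul]
    exact hKL hk⟩
  have htop : H = ⊤ := by
    rw [eq_top_iff]
    intro γ _
    by_contra hγ
    have h1 : ((Set.univ : Set X) ∩ W).Nonempty := by
      refine ⟨γ⁻¹ • k, trivial, Set.mem_iUnion₂.2 ⟨γ, hγ, ?_⟩⟩
      show γ • γ⁻¹ • k ∈ interior L
      rw [smul_inv_smul]
      exact hKL hk
    obtain ⟨x, -, hxU, hxW⟩ := isPreconnected_univ U W hU hW hcov ⟨k, trivial, hkU⟩ h1
    exact hdisj x hxU hxW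
  exact Group.fg_iff.2 ⟨F, htop, hF⟩

theorem core [ConnectedSpace X] (D : AffMfd X Γ E dev hol) :
    ∃ (k : ℕ) (φ : Eu k → E) (ψ : E →ₗ[ℝ] Eu k), IsPol φ ∧ (∀ y, ψ (φ y) = y) ∧
      (∀ (γ : Γ), ∀ p ∈ Set.range φ, hol γ p ∈ Set.range φ) ∧
      (∀ K : Subgroup Γ, K.FiniteIndex → ∀ A : Set E, SemiAlg A →
        (∀ γ ∈ K, ∀ p ∈ A, hol γ p ∈ A) → Set.range φ ⊆ A ∨ Disjoint (Set.range φ) A) ∧
      (∀ K : Subgroup Γ, K.FiniteIndex → ∀ Y : X → E, ContinuousOn Y (dev ⁻¹' Set.range φ) →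
        (∀ x, dev x ∈ Set.range φ → Y x ≠ 0 ∧ fderiv ℝ φ (ψ (dev x)) (ψ (Y x)) = Y x) →
        (∀ γ ∈ K, ∀ x, dev x ∈ Set.range φ → Y (γ • x) = lin hol γ (Y x)) →
        ∃ Z : X → E, Continuous Z ∧ (∀ x, Z x ≠ 0) ∧
          ∀ γ ∈ K, ∀ x : X, Z (γ • x) = lin hol γ (Z x)) ∧
      (∀ (Q : Type) [NormedAddCommGroup Q] [NormedSpace ℝ Q] [FiniteDimensional ℝ Q]
        (σ : Representation ℝ Γ Q),
        (∀ U : Submodule ℝ Q, (∀ γ, ∀ v ∈ U, σ γ v ∈ U) → U = ⊥ ∨ U = ⊤) →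
        ∀ q : E → Q, IsPol q → (∀ γ, ∀ p ∈ Set.range φ, q (hol γ p) = σ γ (q p)) →
        ∀ p ∈ Set.range φ, ∀ p' ∈ Set.range φ, q p = q p') := by
  classical
  obtain ⟨S₀, hS₀⟩ := Group.fg_def.1 (fg_of_mfd D)
  let S : Finset Γ := S₀ ∪ S₀.image (·⁻¹)
  have hS : ∀ s ∈ S, s⁻¹ ∈ S := by
    intro s hs
    rcases Finset.mem_union.1 hs with h | h
    · exact Finset.mem_union_right _ (Finset.mem_image_of_mem _ h)
    · obtain ⟨t, ht, rfl⟩ := Finset.mem_image.1 h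
      rw [inv_inv]
      exact Finset.mem_union_left _ ht
  have hgen : Subgroup.closure (S : Set Γ) = ⊤ := by
    rw [eq_top_iff, ← hS₀]
    exact Subgroup.closure_mono fun s hs => Finset.mem_coe.2 (Finset.mem_union_left _ hs)
  obtain ⟨C, hG⟩ := exists_good (X := Cyl X) (cyl_cont D.cont) (fun K hK => by
    obtain ⟨w, hw⟩ := exists_wt (restr D K hK)
    exact ⟨_, wt_cyl hw⟩) hS hgen _ E hol rfl
  obtain ⟨P, _, _, _, φ₀, ψ₀, hφ₀, hψφ₀, hφψ₀, hφC₀⟩ := hG.par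
  let e : P ≃L[ℝ] Eu (Module.finrank ℝ P) := toEuclidean
  let φ : Eu (Module.finrank ℝ P) → E := fun y => φ₀ (e.symm y)
  let ψ : E →ₗ[ℝ] Eu (Module.finrank ℝ P) := (e : P →ₗ[ℝ] _) ∘ₗ ψ₀
  have hφ : IsPol φ := hφ₀.comp (IsPol.linear (e.symm : Eu (Module.finrank ℝ P) →ₗ[ℝ] P))
  have hψφ : ∀ y, ψ (φ y) = y := fun y => by
    show e (ψ₀ (φ₀ (e.symm y))) = y
    rw [hψφ₀, e.apply_symm_apply]
  have hφψ : ∀ x ∈ C, φ (ψ x) = x := fun x hx => by
    show φ₀ (e.symm (e (ψ₀ x))) = x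
    rw [e.symm_apply_apply, hφψ₀ x hx]
  have hφC : ∀ y, φ y ∈ C := fun y => hφC₀ _
  have hrange : Set.range φ = C := by
    ext x
    exact ⟨by rintro ⟨y, rfl⟩; exact hφC y, fun h => ⟨ψ x, hφψ x h⟩⟩
  refine ⟨_, φ, ψ, hφ, hψφ, ?_, ?_, ?_, ?_⟩
  · rw [hrange]
    exact fun γ p hp => hG.inv γ p hp
  · rw [hrange]
    intro K hK A hA hKA
    by_cases h : (C ∩ A).Nonempty
    · exact Or.inl (dichotomy hS hgen hG hK hKA hA h)
    · exact Or.inr (Set.disjoint_iff_inter_eq_empty.2 (Set.not_nonempty_iff_eq_empty.1 h))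
  · rw [hrange]
    intro K hK Y hYc hYt hYe
    exact tan D hG hφ hφψ hφC hK hYc hYt hYe
  · rw [hrange]
    intro Q _ _ _ σ hirr q hq hqe p hp p' hp'
    exact const_irr hS hgen hG σ hirr hq hqe hp hp'

/-- if the core is a point then it misses the developing image -/
theorem core_point [ConnectedSpace X] [Nontrivial E] (D : AffMfd X Γ E dev hol) {k : ℕ}
    {φ : Eu k → E} (hk : k = 0) (hinv : ∀ (γ : Γ), ∀ p ∈ Set.range φ, hol γ p ∈ Set.range φ)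
    (x : X) : dev x ∉ Set.range φ := by
  subst hk
  have h1 : Set.range φ = {φ 0} := by
    ext p
    constructor
    · rintro ⟨y, rfl⟩
      rw [Subsingleton.elim y 0]
      rfl
    · rintro rfl
      exact ⟨0, rfl⟩
  rw [h1] at hinv ⊢
  exact compact_disjoint D isCompact_singleton hinv x

end Pool.Agent.U352.SB
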