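import Pool.Agent.U352.SB.Good
import Pool.Agent.W689.Ch.Ext

/-!
Tangent fields without zeros on the preimage of the good set extend.
-/

set_option autoImplicit false
set_option linter.unusedSectionVars false

open Filter Topology
open scoped InnerProductSpace TensorProduct

namespace Pool.Agent.U352.SB

open Pool.Agent.W689.Mk (lin hol_add hol_sub hol_inv_apply hol_apply_inv lin_inv_apply lin_mul)
open Pool.Agent.W689.Ch (Wt AffMfd exists_wt ext_compact locComp)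
open Pool.Agent.Y150.Ch (restr)
open Pool.Agent.U352.SA

/-- the cylinder -/
def Cyl (X : Type) : Type := X × unitInterval

instance (X : Type) [TopologicalSpace X] : TopologicalSpace (Cyl X) :=
  inferInstanceAs (TopologicalSpace (X × unitInterval))

instance (X : Type) [TopologicalSpace X] [T2Space X] : T2Space (Cyl X) :=
  inferInstanceAs (T2Space (X × unitInterval))

instance (X Γ : Type) [Group Γ] [MulAction Γ X] : MulAction Γ (Cyl X) where
  smul γ p := (γ • p.1, p.2)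
  one_smul p := Prod.ext (one_smul Γ p.1) rfl
  mul_smul γ δ p := Prod.ext (mul_smul γ δ p.1) rfl

theorem cyl_cont {X Γ : Type} [TopologicalSpace X] [Group Γ] [MulAction Γ X]
    (hc : ∀ γ : Γ, Continuous fun x : X => γ • x) (γ : Γ) :
    Continuous fun p : Cyl X => γ • p :=
  ((hc γ).comp continuous_fst).prodMk continuous_snd

theorem wt_cyl {X Γ : Type} [TopologicalSpace X] [T2Space X] [Group Γ] [MulAction Γ X]
    {K : Subgroup Γ} {w : X → ℝ} (hw : Wt K w) : Wt K (fun p : Cyl X => w p.1) where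
  cont := hw.cont.comp continuous_fst
  nonneg p := hw.nonneg _
  locfin p := by
    obtain ⟨U, hU, F, hF⟩ := hw.locfin p.1
    exact ⟨Prod.fst ⁻¹' U, continuous_fst.continuousAt.preimage_mem_nhds hU, F,
      fun γ hγ q hq => hF γ hγ q.1 hq⟩
  cpt := by
    refine HasCompactSupport.intro (K := (tsupport w ×ˢ Set.univ : Set (X × unitInterval)))
      (hw.cpt.isCompact.prod isCompact_univ) fun p hp => ?_
    by_contra h
    exact hp ⟨subset_tsupport w h, trivial⟩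
  sum p := hw.sum p.1

variable {X Γ E : Type} [TopologicalSpace X] [T2Space X] [Group Γ] [MulAction Γ X]
  [NormedAddCommGroup E] [NormedSpace ℝ E] [FiniteDimensional ℝ E] {dev : X → E}
  {hol : Γ →* (E ≃ᵃ[ℝ] E)}

theorem closed_of_par {C : Set E} {P : Type} [NormedAddCommGroup P] [NormedSpace ℝ P]
    [FiniteDimensional ℝ P] {φ : P → E} {ψ : E →ₗ[ℝ] P} (hφ : Continuous φ)
    (hφψ : ∀ x ∈ C, φ (ψ x) = x) (hφC : ∀ y, φ y ∈ C) : IsClosed C := by
  have h1 : C = {x | φ (ψ x) = x} := by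
    ext x
    exact ⟨fun h => hφψ x h, fun h => by
      have h2 : φ (ψ x) = x := h
      rw [← h2]; exact hφC _⟩
  rw [h1]
  exact isClosed_eq (hφ.comp ψ.continuous_of_finiteDimensional) continuous_id

/-- extension of an equivariant map on a closed set -/
theorem ext_equi (D : AffMfd X Γ E dev hol) {A : Set X} (hA : IsClosed A)
    (hAi : ∀ γ : Γ, ∀ x ∈ A, γ • x ∈ A) {f : X → E} (hf : ContinuousOn f A)
    (hfe : ∀ γ : Γ, ∀ x ∈ A, f (γ • x) = hol γ (f x)) :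
    ∃ G : X → E, Continuous G ∧ (∀ (γ : Γ) (x : X), G (γ • x) = hol γ (G x)) ∧
      ∀ x ∈ A, G x = f x := by
  have := locComp D
  obtain ⟨w, hw⟩ := exists_wt D
  have hK0 : IsCompact (tsupport w ∩ A) := hw.cpt.isCompact.inter_right hA
  obtain ⟨g, hgc, hg⟩ := ext_compact hK0 (hf.mono Set.inter_subset_right)
  refine ⟨avx hol w g, avx_cont hol D.cont hw hgc, avx_equi hol hw g, fun x hx => ?_⟩
  obtain ⟨F, e1, e2, -⟩ := avx_sum hol hw g x
  rw [e1]
  have h6 : ∀ γ ∈ F, w (γ • x) • hol γ⁻¹ (g (γ • x)) = w (γ • x) • f x := by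
    intro γ _
    by_cases h0 : w (γ • x) = 0
    · rw [h0, zero_smul, zero_smul]
    · rw [hg _ ⟨subset_tsupport w h0, hAi γ x hx⟩, hfe γ x hx, hol_inv_apply]
  rw [Finset.sum_congr rfl h6, ← Finset.sum_smul, e2, one_smul]

theorem tan {S : Finset Γ} {C : Set E} (D : AffMfd X Γ E dev hol)
    (hG : Good (Cyl X) S hol C) {P : Type} [NormedAddCommGroup P] [NormedSpace ℝ P]
    [FiniteDimensional ℝ P] {φ : P → E} {ψ : E →ₗ[ℝ] P} (hφ : IsPol φ)
    (hφψ : ∀ x ∈ C, φ (ψ x) = x) (hφC : ∀ y, φ y ∈ C) {K : Subgroup Γ} (hK : K.FiniteIndex)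
    {Y : X → E} (hYc : ContinuousOn Y (dev ⁻¹' C))
    (hYt : ∀ x, dev x ∈ C → Y x ≠ 0 ∧ fderiv ℝ φ (ψ (dev x)) (ψ (Y x)) = Y x)
    (hYe : ∀ γ ∈ K, ∀ x, dev x ∈ C → Y (γ • x) = lin hol γ (Y x)) :
    ∃ Z : X → E, Continuous Z ∧ (∀ x, Z x ≠ 0) ∧
      ∀ γ ∈ K, ∀ x : X, Z (γ • x) = lin hol γ (Z x) := by
  classical
  have DK := restr D K hK
  have hdc := D.loc.continuous
  have hψc : Continuous ψ := ψ.continuous_of_finiteDimensional
  have hφc : Continuous φ := hφ.continuous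
  have hCcl : IsClosed C := closed_of_par hφc hφψ hφC
  have hAcl : IsClosed (dev ⁻¹' C) := hCcl.preimage hdc
  obtain ⟨G, hGc, hGe, hGA⟩ := ext_equi DK hAcl (f := fun x => dev x + Y x)
    (fun γ x hx => by
      show dev ((γ : Γ) • x) ∈ C
      rw [D.equi]
      exact hG.inv _ _ hx) (hdc.continuousOn.add hYc)
    (fun γ x hx => by
      show dev ((γ : Γ) • x) + Y ((γ : Γ) • x) = hol (γ : Γ) (dev x + Y x)
      rw [hYe γ γ.2 x hx, D.equi, hol_add])
  have hGe' : ∀ γ ∈ K, ∀ x, G (γ • x) = hol γ (G x) := fun γ hγ x => hGe ⟨γ, hγ⟩ x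
  let d : Cyl X → E := fun p => dev p.1 + (p.2 : ℝ) • (G p.1 - dev p.1)
  have hd : Continuous d := by
    refine (hdc.comp continuous_fst).add (Continuous.smul ?_ ?_)
    · exact continuous_subtype_val.comp continuous_snd
    · exact (hGc.comp continuous_fst).sub (hdc.comp continuous_fst)
  obtain ⟨r, hr, hrC, hre, hrd, hest⟩ := hG.ext K hK d hd (fun γ hγ p => by
    show dev (γ • p.1) + (p.2 : ℝ) • (G (γ • p.1) - dev (γ • p.1)) = hol γ (dev p.1 + _)
    rw [hol_add, D.equi, hGe' γ hγ, hol_sub]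
    congr 1
    exact (map_smul ((hol γ).linear : E →ₗ[ℝ] E) _ _).symm)
  -- the local claim
  have hloc : ∀ x, dev x ∈ C → ∃ U ∈ 𝓝 x, ∃ δ : ℝ, 0 < δ ∧ ∀ y ∈ U, dev y ∈ C →
      ∀ t : unitInterval, 0 < (t : ℝ) → (t : ℝ) < δ → r (y, t) ≠ dev y := by
    intro x hx
    have hd0 : d (x, 0) = dev x := by
      show dev x + ((0 : unitInterval) : ℝ) • (G x - dev x) = _
      rw [Set.Icc.coe_zero, zero_smul, add_zero]
    obtain ⟨U', hU', V, hV, B, hB0, hB⟩ := hest (x, 0) (by rw [hd0]; exact hx)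
    rw [hd0] at hV
    obtain ⟨M, hM0, hM⟩ := lin_bd ψ
    obtain ⟨ε, hε, hεB⟩ : ∃ ε : ℝ, 0 < ε ∧ 2 * ε * B * M < 1 := by
      refine ⟨1 / (2 * (2 * (B * M + 1))), by positivity, ?_⟩
      have h1 : 0 ≤ B * M := mul_nonneg hB0 hM0
      rw [show 2 * (1 / (2 * (2 * (B * M + 1)))) * B * M = (B * M) / (2 * (B * M + 1)) by
        field_simp]
      rw [div_lt_one (by positivity)]
      linarith
    have hst := ((contDiff_pol hφ).contDiffAt (x := ψ (dev x))).hasStrictFDerivAt one_ne_zero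
    have h1 := (Asymptotics.isLittleO_iff.1 hst.isLittleO) hε
    have hfd : Continuous (fderiv ℝ φ) := (contDiff_one_iff_fderiv.1 (contDiff_pol hφ)).2
    have h2 : ∀ᶠ a in 𝓝 (ψ (dev x)), ‖fderiv ℝ φ a - fderiv ℝ φ (ψ (dev x))‖ < ε := by
      have := (Metric.tendsto_nhds.1 (hfd.tendsto (ψ (dev x)))) ε hε
      filter_upwards [this] with a ha
      rwa [dist_eq_norm] at ha
    let v : X → P := fun y => ψ (G y - dev y)
    have hv : Continuous v := hψc.comp (hGc.sub hdc)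
    let m : Cyl X → P := fun p => ψ (dev p.1) + (p.2 : ℝ) • v p.1
    have hm : Continuous m := by
      refine (hψc.comp (hdc.comp continuous_fst)).add (Continuous.smul ?_ ?_)
      · exact continuous_subtype_val.comp continuous_snd
      · exact hv.comp continuous_fst
    have hm0 : m (x, 0) = ψ (dev x) := by
      show ψ (dev x) + ((0 : unitInterval) : ℝ) • _ = _
      rw [Set.Icc.coe_zero, zero_smul, add_zero]
    have hn : Continuous fun p : Cyl X => ψ (dev p.1) := hψc.comp (hdc.comp continuous_fst)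
    have e1 : ∀ᶠ p in 𝓝 ((x, 0) : Cyl X), ‖φ (m p) - φ (ψ (dev p.1)) -
        fderiv ℝ φ (ψ (dev x)) (m p - ψ (dev p.1))‖ ≤ ε * ‖m p - ψ (dev p.1)‖ := by
      have h3 : Tendsto (fun p : Cyl X => (m p, ψ (dev p.1))) (𝓝 (x, 0))
          (𝓝 (ψ (dev x), ψ (dev x))) := by
        have := (hm.prodMk hn).tendsto ((x, 0) : Cyl X)
        rwa [show (m (x, 0), ψ (dev ((x, 0) : Cyl X).1)) = (ψ (dev x), ψ (dev x)) from by
          rw [hm0]] at this
      exact h3.eventually h1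
    have e2 : ∀ᶠ p in 𝓝 ((x, 0) : Cyl X), ‖fderiv ℝ φ (ψ (dev p.1)) -
        fderiv ℝ φ (ψ (dev x))‖ < ε := (hn.tendsto ((x, 0) : Cyl X)).eventually h2
    have e3 : ∀ᶠ p in 𝓝 ((x, 0) : Cyl X), φ (m p) ∈ V := by
      refine (hφc.comp hm).continuousAt.preimage_mem_nhds ?_
      show V ∈ 𝓝 (φ (m (x, 0)))
      rw [hm0, hφψ _ hx]
      exact hV
    have e4 : ∀ᶠ p in 𝓝 ((x, 0) : Cyl X), p ∈ U' := hU'
    obtain ⟨W, hW, W', hW', hWW⟩ := mem_nhds_prod_iff.1 (((e1.and e2).and e3).and e4)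
    obtain ⟨δ, hδ, hδW⟩ := Metric.mem_nhds_iff.1 hW'
    refine ⟨W, hW, δ, hδ, fun y hy hyC t ht0 htδ heq => ?_⟩
    have htW : t ∈ W' := hδW (by
      rw [Metric.mem_ball, Subtype.dist_eq, Set.Icc.coe_zero, Real.dist_eq, sub_zero,
        abs_of_pos ht0]
      exact htδ)
    obtain ⟨⟨⟨k1, k2⟩, k3⟩, k4⟩ : (((_ ∧ _) ∧ _) ∧ _) := hWW (Set.mk_mem_prod hy htW)
    have hGy : G y - dev y = Y y := by rw [hGA y hyC, add_sub_cancel_left]
    have hvy : v y = ψ (Y y) := by show ψ (G y - dev y) = _; rw [hGy]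
    obtain ⟨hY0, hYT⟩ := hYt y hyC
    have hmy : m (y, t) - ψ (dev y) = (t : ℝ) • ψ (Y y) := by
      show ψ (dev y) + (t : ℝ) • v y - ψ (dev y) = _
      rw [add_sub_cancel_left, hvy]
    have hdy : d (y, t) = dev y + (t : ℝ) • Y y := by
      show dev y + (t : ℝ) • (G y - dev y) = _
      rw [hGy]
    have hφy : φ (ψ (dev y)) = dev y := hφψ _ hyC
    have k5 := hB (y, t) k4 (φ (m (y, t))) (hφC _) k3
    have k6 : ‖r (y, t) - d (y, t)‖ = t * ‖Y y‖ := by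
      rw [heq, hdy, sub_add_cancel_left, norm_neg, norm_smul, Real.norm_of_nonneg ht0.le]
    have k7 : ‖d (y, t) - φ (m (y, t))‖ ≤ 2 * ε * (t * (M * ‖Y y‖)) := by
      have k8 : d (y, t) - φ (m (y, t)) = -(φ (m (y, t)) - φ (ψ (dev y)) -
          fderiv ℝ φ (ψ (dev x)) (m (y, t) - ψ (dev y))) +
          (fderiv ℝ φ (ψ (dev y)) - fderiv ℝ φ (ψ (dev x))) (m (y, t) - ψ (dev y)) := by
        rw [_root_.sub_apply, hmy, map_smul, map_smul, hYT, hdy, hφy]
        abel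
      have k9 : ‖m (y, t) - ψ (dev y)‖ ≤ t * (M * ‖Y y‖) := by
        rw [hmy, norm_smul, Real.norm_of_nonneg ht0.le]
        exact mul_le_mul_of_nonneg_left (hM _) ht0.le
      rw [k8]
      refine (norm_add_le _ _).trans ?_
      rw [norm_neg]
      have k10 := (ContinuousLinearMap.le_opNorm (fderiv ℝ φ (ψ (dev y)) -
        fderiv ℝ φ (ψ (dev x))) (m (y, t) - ψ (dev y)))
      have k11 : ‖fderiv ℝ φ (ψ (dev y)) - fderiv ℝ φ (ψ (dev x))‖ * ‖m (y, t) - ψ (dev y)‖ ≤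
          ε * ‖m (y, t) - ψ (dev y)‖ := mul_le_mul_of_nonneg_right k2.le (norm_nonneg _)
      have k12 : ε * ‖m (y, t) - ψ (dev y)‖ ≤ ε * (t * (M * ‖Y y‖)) :=
        mul_le_mul_of_nonneg_left k9 hε.le
      have k13 : ‖φ (m (y, t)) - φ (ψ (dev y)) -
          fderiv ℝ φ (ψ (dev x)) (m (y, t) - ψ (dev y))‖ ≤ ε * ‖m (y, t) - ψ (dev y)‖ := k1
      linarith
    have k14 : t * ‖Y y‖ ≤ B * (2 * ε * (t * (M * ‖Y y‖))) := by
      rw [← k6]
      exact k5.trans (mul_le_mul_of_nonneg_left k7 hB0)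
    have k15 : 0 < t * ‖Y y‖ := mul_pos ht0 (norm_pos_iff.2 hY0)
    have k16 : B * (2 * ε * (t * (M * ‖Y y‖))) = 2 * ε * B * M * (t * ‖Y y‖) := by ring
    rw [k16] at k14
    have k17 := mul_lt_mul_of_pos_right hεB k15
    linarith
  -- the uniform claim
  obtain ⟨K₁, hK₁, hcov⟩ := DK.cc
  have hcpt : IsCompact (K₁ ∩ dev ⁻¹' C) := hK₁.inter_right hAcl
  obtain ⟨δ, hδ, hunif⟩ : ∃ δ : ℝ, 0 < δ ∧ ∀ y ∈ K₁ ∩ dev ⁻¹' C, ∀ t : unitInterval,
      0 < (t : ℝ) → (t : ℝ) < δ → r (y, t) ≠ dev y := by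
    refine hcpt.induction_on (p := fun s => ∃ δ : ℝ, 0 < δ ∧ ∀ y ∈ s, dev y ∈ C →
      ∀ t : unitInterval, 0 < (t : ℝ) → (t : ℝ) < δ → r (y, t) ≠ dev y) ?_ ?_ ?_ ?_ |>.imp ?_
    · exact ⟨1, one_pos, fun y hy => absurd hy (Set.notMem_empty y)⟩
    · rintro s t hst ⟨δ, hδ, h⟩
      exact ⟨δ, hδ, fun y hy => h y (hst hy)⟩
    · rintro s t ⟨δ, hδ, h⟩ ⟨δ', hδ', h'⟩
      refine ⟨min δ δ', lt_min hδ hδ', ?_⟩
      rintro y (hy | hy) hyC u hu0 hu
      · exact h y hy hyC u hu0 (hu.trans_le (min_le_left _ _))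
      · exact h' y hy hyC u hu0 (hu.trans_le (min_le_right _ _))
    · intro x hx
      obtain ⟨U, hU, δ, hδ, h⟩ := hloc x hx.2
      exact ⟨U, mem_nhdsWithin_of_mem_nhds hU, δ, hδ, h⟩
    · rintro δ ⟨hδ, h⟩
      exact ⟨hδ, fun y hy => h y hy hy.2⟩
  obtain ⟨t₁, ht0, ht1⟩ : ∃ t : unitInterval, 0 < (t : ℝ) ∧ (t : ℝ) < δ := by
    refine ⟨⟨min (δ / 2) 1, by positivity, min_le_right _ _⟩, lt_min (by positivity) one_pos, ?_⟩
    exact (min_le_left _ _).trans_lt (by linarith)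
  have hne : ∀ x, r (x, t₁) ≠ dev x := by
    intro x heq
    have hxC : dev x ∈ C := heq ▸ hrC _
    obtain ⟨γ, k, hk, hγ⟩ := hcov x
    have hγ' : (γ : Γ) • k = x := hγ
    have hkC : dev k ∈ C := by
      have h1 := hG.inv (γ : Γ)⁻¹ _ hxC
      rwa [← hγ', D.equi, hol_inv_apply] at h1
    refine hunif k ⟨hk, hkC⟩ t₁ ht0 ht1 ?_
    have h2 : r (x, t₁) = hol (γ : Γ) (r (k, t₁)) := by
      rw [← hγ']
      exact hre γ γ.2 (k, t₁)
    have h3 : dev x = hol (γ : Γ) (dev k) := by rw [← hγ', D.equi]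
    rw [h2, h3] at heq
    exact (hol (γ : Γ)).injective heq
  refine ⟨fun x => r (x, t₁) - dev x, ?_, fun x h => hne x (sub_eq_zero.1 h), fun γ hγ x => ?_⟩
  · exact (hr.comp (continuous_id.prodMk continuous_const)).sub hdc
  · show r (γ • x, t₁) - dev (γ • x) = _
    have h2 : r (γ • x, t₁) = hol γ (r (x, t₁)) := hre γ hγ (x, t₁)
    rw [h2, D.equi, hol_sub]

end Pool.Agent.U352.SB
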